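import Pool.Agent.N236.UR.Stm5
import Pool.Agent.N645.UR.CNT

/-!
# UR/CNT3: number of affine fixed points, power stages and Dickson stages

Adapted from `Pool.Agent.N645.UR.CNT` (helper645), which treats the power stages.
-/

set_option autoImplicit false

open Polynomial

namespace Pool.Agent.N618.UR

open Pool.Agent.N236.UR Pool.Agent.N645.UR

section

variable {R : Type} [CommRing R]

lemma dk_zero (b x : R) : (dickson 1 b 0).eval x = 2 := by
  rw [dickson_zero]
  norm_num

lemma dk_one (b x : R) : (dickson 1 b 1).eval x = x := by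
  rw [dickson_one, eval_X]

lemma dk_add_two (b x : R) (n : ℕ) : (dickson 1 b (n + 2)).eval x =
    x * (dickson 1 b (n + 1)).eval x - b * (dickson 1 b n).eval x := by
  rw [dickson_add_two, eval_sub, eval_mul, eval_mul, eval_X, eval_C]

end

variable {K : Type} [Field K]

/-- the values of the Dickson polynomials at a pair of polynomials -/
noncomputable def FP (α : K) (V : K[X] × K[X]) (n : ℕ) : K[X] :=
  (dickson 1 (C α * V.2 ^ 2) n).eval V.1

lemma FP_zero (α : K) (V : K[X] × K[X]) : FP α V 0 = 2 := dk_zero _ _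

lemma FP_one (α : K) (V : K[X] × K[X]) : FP α V 1 = V.1 := dk_one _ _

lemma FP_add_two (α : K) (V : K[X] × K[X]) (n : ℕ) :
    FP α V (n + 2) = V.1 * FP α V (n + 1) - C α * V.2 ^ 2 * FP α V n := dk_add_two _ _ _

/-- the Dickson stage on pairs of polynomials -/
noncomputable def dkP (l : ℕ) (α : K) (V : K[X] × K[X]) : K[X] × K[X] := (FP α V l, V.2 ^ l)

/-- a stage on pairs of polynomials -/
noncomputable def sgP : Sg K → K[X] × K[X] → K[X] × K[X]
  | .pow m => pwP m
  | .dic l α => dkP l α

/-- the run on pairs of polynomials -/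
noncomputable def runSP : List (Matrix (Fin 2) (Fin 2) K × Sg K) → K[X] × K[X] → K[X] × K[X]
  | [], x => x
  | s :: t, x => runSP t (sgP s.2 (linP s.1 x))

/-- the factor of the Wronskian -/
noncomputable def QP (α : K) (V : K[X] × K[X]) : ℕ → K[X]
  | 0 => 0
  | 1 => 1
  | (n + 2) => FP α V (n + 1) + V.1 * QP α V (n + 1) - C α * V.2 ^ 2 * QP α V n

/-! ### evaluation -/

lemma ev_FP (x α : K) (V : K[X] × K[X]) (n : ℕ) :
    (FP α V n).eval x = (dickson 1 (α * (V.2.eval x) ^ 2) n).eval (V.1.eval x) := by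
  induction n using Nat.twoStepInduction with
  | zero =>
    rw [FP_zero, dk_zero]
    simp
  | one => rw [FP_one, dk_one]
  | more n ih1 ih2 =>
    rw [FP_add_two, dk_add_two, eval_sub, eval_mul, eval_mul, eval_mul, eval_C, eval_pow, ih1, ih2]

lemma ev_dk (x : K) (l : ℕ) (α : K) (V : K[X] × K[X]) :
    evP x (dkP l α V) = dkm l α (evP x V) := by
  unfold evP dkP dkm
  rw [Prod.mk.injEq]
  exact ⟨ev_FP x α V l, by simp⟩

lemma ev_sg (x : K) (s : Sg K) (V : K[X] × K[X]) : evP x (sgP s V) = s.fn (evP x V) := by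
  cases s with
  | pow m => exact ev_pw x m V
  | dic l α => exact ev_dk x l α V

lemma ev_runS (x : K) (st : List (Matrix (Fin 2) (Fin 2) K × Sg K)) : ∀ V : K[X] × K[X],
    evP x (runSP st V) = runS st (evP x V) := by
  induction st with
  | nil => intro V; rfl
  | cons s t ih =>
    intro V
    show evP x (runSP t (sgP s.2 (linP s.1 V))) = runS t (s.2.fn (lin s.1 (evP x V)))
    rw [ih, ev_sg, ev_lin]

/-! ### degrees -/

lemma deg_FP (α : K) (V : K[X] × K[X]) (m : ℕ) (h : V.1.natDegree ≤ m ∧ V.2.natDegree ≤ m)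
    (n : ℕ) : (FP α V n).natDegree ≤ m * n := by
  induction n using Nat.twoStepInduction with
  | zero =>
    rw [FP_zero]
    have : (2 : K[X]) = C 2 := (map_ofNat (C : K →+* K[X]) 2).symm
    rw [this, natDegree_C]
    omega
  | one => rw [FP_one, mul_one]; exact h.1
  | more n ih1 ih2 =>
    rw [FP_add_two]
    refine (natDegree_sub_le _ _).trans (max_le ?_ ?_)
    · refine natDegree_mul_le.trans ?_
      nlinarith [h.1]
    · refine natDegree_mul_le.trans ?_
      have h1 : (C α * V.2 ^ 2).natDegree ≤ 2 * m := by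
        refine (natDegree_C_mul_le _ _).trans (natDegree_pow_le.trans ?_)
        nlinarith [h.2]
      nlinarith

lemma deg_sg (s : Sg K) (V : K[X] × K[X]) (m : ℕ) (h : V.1.natDegree ≤ m ∧ V.2.natDegree ≤ m) :
    (sgP s V).1.natDegree ≤ m * s.deg ∧ (sgP s V).2.natDegree ≤ m * s.deg := by
  have h2 : ∀ k : ℕ, (V.2 ^ k).natDegree ≤ m * k := by
    intro k
    refine natDegree_pow_le.trans ?_
    rw [mul_comm]
    exact Nat.mul_le_mul_right _ h.2
  cases s with
  | pow k =>
    refine ⟨?_, h2 k⟩
    show (V.1 ^ k).natDegree ≤ m * k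
    refine natDegree_pow_le.trans ?_
    rw [mul_comm]
    exact Nat.mul_le_mul_right _ h.1
  | dic l α => exact ⟨deg_FP α V m h l, h2 l⟩

lemma deg_runS (st : List (Matrix (Fin 2) (Fin 2) K × Sg K)) : ∀ (V : K[X] × K[X]) (m : ℕ),
    V.1.natDegree ≤ m ∧ V.2.natDegree ≤ m →
    (runSP st V).1.natDegree ≤ m * (st.map fun s => s.2.deg).prod ∧
      (runSP st V).2.natDegree ≤ m * (st.map fun s => s.2.deg).prod := by
  induction st with
  | nil => intro V m h; simpa [runSP] using h
  | cons s t ih =>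
    intro V m h
    have h1 := deg_lin (A := s.1) h
    have h2 := deg_sg s.2 (linP s.1 V) m h1
    have h3 := ih _ _ h2
    rw [List.map_cons, List.prod_cons, ← mul_assoc]
    exact h3

/-! ### coprimality -/

lemma FP_mod (α : K) (V : K[X] × K[X]) (n : ℕ) : V.2 ∣ FP α V (n + 1) - V.1 ^ (n + 1) := by
  induction n with
  | zero => rw [FP_one]; simp
  | succ n ih =>
    obtain ⟨q, hq⟩ := ih
    refine ⟨V.1 * q - C α * V.2 * FP α V n, ?_⟩
    rw [FP_add_two]
    linear_combination V.1 * hq

lemma cop_sg (s : Sg K) (hs : 2 ≤ s.deg) (V : K[X] × K[X]) (h : IsCoprime V.1 V.2) :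
    IsCoprime (sgP s V).1 (sgP s V).2 := by
  cases s with
  | pow k => exact h.pow
  | dic l α =>
    have hl : 2 ≤ l := hs
    obtain ⟨n, rfl⟩ : ∃ n, l = n + 1 := ⟨l - 1, by omega⟩
    show IsCoprime (FP α V (n + 1)) (V.2 ^ (n + 1))
    apply IsCoprime.pow_right
    obtain ⟨q, hq⟩ := FP_mod α V n
    have h1 : FP α V (n + 1) = V.1 ^ (n + 1) + V.2 * q := by linear_combination hq
    rw [h1]
    exact (h.pow_left).add_mul_left_left q

lemma cop_runS (st : List (Matrix (Fin 2) (Fin 2) K × Sg K)) : ∀ (V : K[X] × K[X]),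
    (∀ s ∈ st, s.1.det ≠ 0 ∧ 2 ≤ s.2.deg) → IsCoprime V.1 V.2 →
    IsCoprime (runSP st V).1 (runSP st V).2 := by
  induction st with
  | nil => intro V _ h; exact h
  | cons s t ih =>
    intro V hs h
    refine ih _ (fun s' hs' => hs s' (List.mem_cons_of_mem _ hs')) ?_
    have h1 := hs s List.mem_cons_self
    exact cop_sg _ h1.2 _ (cop_lin h1.1 h)

/-! ### Wronskians -/

lemma wr_FP (α : K) (V : K[X] × K[X]) (n : ℕ) :
    (n : K[X]) * FP α V n * derivative V.2 - V.2 * derivative (FP α V n) = QP α V n * Wr V := by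
  induction n using Nat.twoStepInduction with
  | zero =>
    rw [FP_zero]
    have : derivative (2 : K[X]) = 0 := by
      have : (2 : K[X]) = C 2 := (map_ofNat (C : K →+* K[X]) 2).symm
      rw [this, derivative_C]
    rw [this]
    simp [QP]
  | one =>
    rw [FP_one]
    simp [QP, Wr]
  | more n ih1 ih2 =>
    rw [FP_add_two]
    simp only [QP, derivative_sub, derivative_mul, derivative_C, derivative_pow]
    push_cast at ih1 ih2 ⊢
    unfold Wr at ih1 ih2 ⊢
    simp only [map_ofNat]
    linear_combination V.1 * ih2 - C α * V.2 ^ 2 * ih1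

lemma wr_dk (l : ℕ) (hl : 1 ≤ l) (α : K) (V : K[X] × K[X]) :
    Wr (dkP l α V) = V.2 ^ (l - 1) * QP α V l * Wr V := by
  obtain ⟨k, rfl⟩ : ∃ k, l = k + 1 := ⟨l - 1, by omega⟩
  have h := wr_FP α V (k + 1)
  unfold Wr dkP
  simp only
  rw [derivative_pow, Nat.add_sub_cancel]
  have h2 : V.2 ^ k * QP α V (k + 1) * (V.1 * derivative V.2 - V.2 * derivative V.1) =
      V.2 ^ k * (QP α V (k + 1) * Wr V) := by
    unfold Wr
    ring
  rw [h2, ← h]
  simp only [map_natCast]
  ring

/-- the factor of a stage -/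
noncomputable def fac (s : Sg K) (V : K[X] × K[X]) : K[X] :=
  match s with
  | .pow m => C (m : K) * (V.1 * V.2) ^ (m - 1)
  | .dic l α => V.2 ^ (l - 1) * QP α V l

lemma wr_sg (s : Sg K) (hs : 2 ≤ s.deg) (V : K[X] × K[X]) : Wr (sgP s V) = fac s V * Wr V := by
  cases s with
  | pow m =>
    have hm : 2 ≤ m := hs
    exact wr_pw m (by omega) V
  | dic l α =>
    have hl : 2 ≤ l := hs
    exact wr_dk l (by omega) α V

lemma dvd_runS (st : List (Matrix (Fin 2) (Fin 2) K × Sg K)) : ∀ (V : K[X] × K[X]) (D : K[X]),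
    (∀ s ∈ st, 2 ≤ s.2.deg) → D ∣ Wr V → D ∣ Wr (runSP st V) := by
  induction st with
  | nil => intro V D _ h; exact h
  | cons s t ih =>
    intro V D hs h
    refine ih _ _ (fun s' hs' => hs s' (List.mem_cons_of_mem _ hs')) ?_
    have h2 := hs s List.mem_cons_self
    rw [wr_sg s.2 h2, wr_lin]
    exact Dvd.dvd.mul_left (Dvd.dvd.mul_left h _) _

lemma coeff_FP (α a b d : K) (n : ℕ) :
    (FP α (C a * X + C b, C d) (n + 1)).coeff (n + 1) = a ^ (n + 1) := by
  have hV : (C a * X + C b : K[X]).natDegree ≤ 1 ∧ (C d : K[X]).natDegree ≤ 1 :=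
    ⟨natDegree_linear_le, by simp⟩
  have hdeg : ∀ k j : ℕ, k < j → (FP α (C a * X + C b, C d) k).coeff j = 0 := by
    intro k j hkj
    apply coeff_eq_zero_of_natDegree_lt
    have := deg_FP α (C a * X + C b, C d) 1 hV k
    omega
  induction n with
  | zero =>
    rw [FP_one]
    simp
  | succ n ih =>
    rw [FP_add_two]
    have h1 : C α * (C d : K[X]) ^ 2 = C (α * d ^ 2) := by simp
    rw [h1]
    have h2 : (C a * X + C b : K[X]) * FP α (C a * X + C b, C d) (n + 1) =
        C a * (X * FP α (C a * X + C b, C d) (n + 1)) + C b * FP α (C a * X + C b, C d) (n + 1) := by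
      ring
    show ((C a * X + C b : K[X]) * FP α (C a * X + C b, C d) (n + 1) -
      C (α * d ^ 2) * FP α (C a * X + C b, C d) n).coeff (n + 1 + 1) = _
    rw [h2, coeff_sub, coeff_add, coeff_C_mul, coeff_C_mul, coeff_C_mul, coeff_X_mul, ih,
      hdeg (n + 1) (n + 1 + 1) (by omega), hdeg n (n + 1 + 1) (by omega)]
    ring

theorem t_cnt3 : Pool.Agent.N236.UR.S_CNT3 := by
  intro K _ _ st B hst hB hne S hS
  classical
  obtain ⟨V, hV⟩ : ∃ V : K[X] × K[X], V = linP B (runSP st (X, 1)) := ⟨_, rfl⟩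
  obtain ⟨R, hR⟩ : ∃ R : K[X], R = V.1 - X * V.2 := ⟨_, rfl⟩
  have hroot : ∀ x ∈ S, R.eval x = 0 := by
    intro x hx
    have h1 := hS x hx
    have h2 : evP x V = lin B (runS st (x, 1)) := by
      rw [hV, ev_lin, ev_runS]
      congr 2
      unfold evP
      simp
    rw [← h2] at h1
    unfold wd evP at h1
    simp only [mul_one] at h1
    rw [hR]
    simp only [eval_sub, eval_mul, eval_X]
    linear_combination h1
  have hdeg : R.natDegree ≤ (st.map fun s => s.2.deg).prod + 1 := by
    have h1 := deg_runS st ((X, 1) : K[X] × K[X]) 1 ⟨natDegree_X_le, by simp⟩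
    rw [one_mul] at h1
    have h2 := deg_lin (A := B) h1
    rw [← hV] at h2
    rw [hR]
    refine (natDegree_sub_le _ _).trans (max_le (by omega) ?_)
    refine natDegree_mul_le.trans ?_
    have h3 : (X : K[X]).natDegree ≤ 1 := natDegree_X_le
    omega
  have hR0 : R ≠ 0 := by
    intro h0
    rw [hR, sub_eq_zero] at h0
    have hcop : IsCoprime V.1 V.2 := by
      rw [hV]
      refine cop_lin hB (cop_runS st _ hst ?_)
      exact isCoprime_one_right
    have hunit : IsUnit V.2 := by
      rw [h0] at hcop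
      exact (isCoprime_self.1 (IsCoprime.of_mul_left_right hcop))
    have hWr : Wr V = -(V.2 ^ 2) := by
      unfold Wr
      rw [h0, derivative_mul, derivative_X]
      ring
    obtain ⟨s, t, rfl⟩ : ∃ s t, st = s :: t := by
      cases st with
      | nil => exact absurd rfl hne
      | cons s t => exact ⟨s, t, rfl⟩
    obtain ⟨A, sg⟩ := s
    have hs := hst (A, sg) List.mem_cons_self
    obtain ⟨U, hU⟩ : ∃ U : K[X] × K[X], U = linP A (X, 1) := ⟨_, rfl⟩
    have hdvd : fac sg U ∣ Wr V := by
      rw [hV, wr_lin]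
      apply Dvd.dvd.mul_left
      refine dvd_runS t _ _ (fun s' hs' => (hst s' (List.mem_cons_of_mem _ hs')).2) ?_
      show fac sg U ∣ Wr (sgP sg (linP A (X, 1)))
      rw [← hU, wr_sg sg hs.2]
      exact Dvd.intro _ rfl
    have hu : IsUnit (fac sg U) := by
      refine isUnit_of_dvd_unit hdvd ?_
      rw [hWr]
      exact (hunit.pow 2).neg
    have hlin : ∀ a b : K, IsUnit (C a * X + C b * 1 : K[X]) → a = 0 := by
      intro a b h
      have h1 := natDegree_eq_zero_of_isUnit h
      by_contra ha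
      rw [mul_one, natDegree_linear ha] at h1
      exact one_ne_zero h1
    cases sg with
    | pow m =>
      have hm : 2 ≤ m := hs.2
      have hu' : IsUnit ((U.1 * U.2) ^ (m - 1)) := isUnit_of_mul_isUnit_right hu
      have hu'' : IsUnit (U.1 * U.2) := (isUnit_pow_iff (by omega)).1 hu'
      have hu1 : IsUnit U.1 := isUnit_of_mul_isUnit_left hu''
      have hu2 : IsUnit U.2 := isUnit_of_mul_isUnit_right hu''
      have ha := hlin (A 0 0) (A 0 1) (by rw [hU] at hu1; exact hu1)
      have hb := hlin (A 1 0) (A 1 1) (by rw [hU] at hu2; exact hu2)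
      apply hs.1
      show A.det = 0
      rw [Matrix.det_fin_two, ha, hb]
      ring
    | dic l α =>
      have hl : 2 ≤ l := hs.2
      have hu1 : IsUnit (U.2 ^ (l - 1)) := isUnit_of_mul_isUnit_left hu
      have hu2 : IsUnit U.2 := (isUnit_pow_iff (by omega)).1 hu1
      have hu3 : IsUnit (QP α U l) := isUnit_of_mul_isUnit_right hu
      have hb := hlin (A 1 0) (A 1 1) (by rw [hU] at hu2; exact hu2)
      have hdet : A 0 0 * A 1 1 ≠ 0 := by
        have h9 : A.det ≠ 0 := hs.1
        rw [Matrix.det_fin_two, hb] at h9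
        simpa using h9
      have hU' : U = (C (A 0 0) * X + C (A 0 1), C (A 1 1)) := by
        rw [hU]
        unfold linP
        simp [hb]
      have hW : Wr U = C (-(A 0 0 * A 1 1)) := by
        rw [hU']
        unfold Wr
        simp
        ring
      have h1 := wr_FP α U l
      rw [hW] at h1
      have hU2 : U.2 = C (A 1 1) := by rw [hU']
      rw [hU2, derivative_C, mul_zero, zero_sub] at h1
      obtain ⟨n, rfl⟩ : ∃ n, l = n + 1 := ⟨l - 1, by omega⟩
      have h2 : IsUnit (QP α U (n + 1) * C (-(A 0 0 * A 1 1))) := by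
        refine hu3.mul ?_
        rw [isUnit_C]
        exact isUnit_iff_ne_zero.2 (neg_ne_zero.2 hdet)
      rw [← h1] at h2
      have h2' := h2.neg
      rw [neg_neg] at h2'
      have h3 : IsUnit (derivative (FP α U (n + 1))) := isUnit_of_mul_isUnit_right h2'
      have h4 := natDegree_eq_zero_of_isUnit h3
      have h5 : (derivative (FP α U (n + 1))).coeff n = 0 := by
        apply coeff_eq_zero_of_natDegree_lt
        omega
      rw [coeff_derivative, hU', coeff_FP] at h5
      have h6 : (A 0 0) ≠ 0 := left_ne_zero_of_mul hdet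
      have h7 : ((n : K) + 1) ≠ 0 := by exact_mod_cast Nat.succ_ne_zero n
      exact (mul_ne_zero (pow_ne_zero _ h6) h7) h5
  have hsub : S ⊆ R.roots.toFinset := by
    intro x hx
    rw [Multiset.mem_toFinset, mem_roots hR0]
    exact hroot x hx
  exact (Finset.card_le_card hsub).trans ((Multiset.toFinset_card_le _).trans
    ((card_roots' R).trans hdeg))

end Pool.Agent.N618.UR

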